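import Pool.Agent.Lib.MP_fee052_al.Finite

/-!
# The Patterson-Sullivan intersection function on outer space is at least one

For every `N ≥ 2` and all points `T, S` of outer space `cv_N` (no normalization of the volume is
needed) the Patterson-Sullivan currents `μ_T`, `μ_S`, scaled so that `⟨T, μ_T⟩ = ⟨S, μ_S⟩ = 1`,
satisfy `I(T, S) = ⟨S, μ_T⟩ ⟨T, μ_S⟩ ≥ 1`.

The definitions (the boundary of the free group, the trees, the intersection form, the
Patterson-Sullivan measures and currents) are in `Pool.Agent.Lib.MP_fee052_al.Defs`.
-/

open MeasureTheory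

namespace Pool.Agent.Results.MP_fee052_al.LowerBound

open Pool.Agent.OuterSpace

theorem result (N : ℕ) (hN : 2 ≤ N) (T S : OuterTree N)
    (μT μS : Measure (Boundary N × Boundary N))
    (hT : T.IsPSCurrent μT) (hS : S.IsPSCurrent μS) :
    1 ≤ (S.pairing μT).toReal * (T.pairing μS).toReal :=
  OuterTree.one_le_intersection_real hN hT hS

end Pool.Agent.Results.MP_fee052_al.LowerBound
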